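import Pool.Agent.Work.MP_02927d_an.Fin

/-!
# MP_02927d_an, Q1: unitizations of unconditional-basis sequence algebras are Calkin algebras

For every complex Banach space `U` with a normalized unconditional basis, the unitization of `U`
with the coordinate-wise product is isomorphic as a Banach algebra to `L(X) / K(X)` for some Banach
space `X`.
-/

noncomputable section

namespace Pool.Agent.Results.MP_02927d_an.UnitizationsAreCalkin

universe u

section unitization

variable {U : Type u} [NormedAddCommGroup U] [NormedSpace ℂ U]

/-- The `s`-th term of the series of the coordinate-wise product. -/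
def mulTerm (b : UnconditionalSchauderBasis ℕ ℂ U) (x y : U) (s : ℕ) : U :=
  (b.coord s x * b.coord s y) • b s

/-- The coordinate-wise product of two vectors of `U` with respect to the basis `b`: the vector
whose `s`-th coordinate is the product of the `s`-th coordinates of `x` and `y`. -/
def coordMul (b : UnconditionalSchauderBasis ℕ ℂ U) (x y : U) : U := ∑' s, mulTerm b x y s

/-- The product of the unitization `U ⊕ ℂ`: `(x, l) (y, m) = (x y + l y + m x, l m)`. -/
def unitMul (b : UnconditionalSchauderBasis ℕ ℂ U) (p q : U × ℂ) : U × ℂ :=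
  (coordMul b p.1 q.1 + p.2 • q.1 + q.2 • p.1, p.2 * q.2)

end unitization

section calkin

variable (X : Type u) [NormedAddCommGroup X] [NormedSpace ℂ X]

/-- The subspace `K(X)` of the compact operators in `L(X)`. -/
def Compacts : Submodule ℂ (X →L[ℂ] X) := compactOperator (RingHom.id ℂ) X X

/-- The quotient `L(X) / K(X)` of the bounded operators on `X` by the compact operators. -/
def Calkin : Type u := (X →L[ℂ] X) ⧸ Compacts X

instance : SeminormedAddCommGroup (Calkin X) :=
  Submodule.Quotient.seminormedAddCommGroup (Compacts X)

instance : NormedSpace ℂ (Calkin X) := Submodule.Quotient.normedSpace (Compacts X) ℂ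

variable {X}

/-- The class of a bounded operator in `L(X) / K(X)`. -/
def cls (T : X →L[ℂ] X) : Calkin X := Submodule.Quotient.mk T

end calkin

section iso

variable {U X : Type u} [NormedAddCommGroup U] [NormedSpace ℂ U] [NormedAddCommGroup X]
  [NormedSpace ℂ X]

/-- The image under `Φ : L(X) / K(X) → U ⊕ ℂ` of the class of the operator `T`. -/
def val (Φ : Calkin X ≃L[ℂ] (U × ℂ)) (T : X →L[ℂ] X) : U × ℂ := Φ (cls T)

/-- `Φ : L(X) / K(X) → U ⊕ ℂ`, a bounded linear bijection with bounded inverse, is an isomorphism
of unital Banach algebras: it sends the class of the identity to the unit `(0, 1)` and the class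
of `S T` to the product of the images of the classes of `S` and `T`. -/
structure IsAlgIso (b : UnconditionalSchauderBasis ℕ ℂ U) (Φ : Calkin X ≃L[ℂ] (U × ℂ)) :
    Prop where
  map_id : val Φ (ContinuousLinearMap.id ℂ X) = (0, 1)
  map_comp : ∀ S T : X →L[ℂ] X, val Φ (S.comp T) = unitMul b (val Φ S) (val Φ T)

end iso

/-- The unitization of `U` with the coordinate-wise product is a Calkin algebra: it is isomorphic
as a Banach algebra to `L(X) / K(X)` for some Banach space `X`. -/
def IsCalkinAlgebra {U : Type u} [NormedAddCommGroup U] [NormedSpace ℂ U]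
    (b : UnconditionalSchauderBasis ℕ ℂ U) : Prop :=
  ∃ (X : Type u) (_ : NormedAddCommGroup X) (_ : NormedSpace ℂ X) (_ : CompleteSpace X)
    (Φ : Calkin X ≃L[ℂ] (U × ℂ)), IsAlgIso b Φ

/-- For every Banach space `U` with a normalized unconditional Schauder basis `b`, the
coordinate-wise product is well defined, and the unitization of `U` is a Calkin algebra. -/
theorem result (U : Type u) [NormedAddCommGroup U] [NormedSpace ℂ U] [CompleteSpace U]
    (b : UnconditionalSchauderBasis ℕ ℂ U) (hb : ∀ s, ‖b s‖ = 1) :
    (∀ x y : U, Summable (mulTerm b x y)) ∧ IsCalkinAlgebra b := by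
  obtain ⟨h1, X, i1, i2, i3, Φ, h2, h3⟩ := Pool.Agent.CK.final U b hb
  exact ⟨h1, X, i1, i2, i3, Φ, h2, h3⟩

end Pool.Agent.Results.MP_02927d_an.UnitizationsAreCalkin
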